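import Mathlib

/-!
# Strong geodetic numbers of Cartesian products: the square root is the right order

For connected graphs `G`, `H` and `s = sg (G □ H)` we show `sg G ≤ s (s + 1) / 2`, and that this is
sharp up to a constant factor, already for `H = K₂`.

Bound: let `S` be a strong geodetic set of `G □ H`. The chosen geodesics of the product project to
geodesics of `G` which cover `G` and whose ends lie in the projection `A` of `S`. Take a minimal
subfamily that still covers `V(G) ∖ A`. Each member has a private vertex outside `A`, and `A`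
together with these private vertices is a strong geodetic set of `G`: join each private vertex to
the two ends of its geodesic.

Examples: `K_{2, 3 p²}` with `p` pendant vertices at each of the two vertices of the small side. In
`G` there are only `(p + 1)²` pairs of vertices whose geodesics pass through the large side, one
vertex each. In `G □ K₂` the pairs of leaves `(x, 0), (y, 1)` and `(x, 1), (y, 0)` take care of one
column each and the pairs `(x, 0), (y, 0)` and `(x, 1), (y, 1)` of one column together.
-/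

set_option autoImplicit false

namespace Pool.Agent.Results.MP_8400ad_co.SquareRootOrder

open SimpleGraph Finset

/-- `S` is a strong geodetic set of `G`: for every unordered pair of distinct vertices `x, y` of `S`
one geodesic (a walk from `x` to `y` whose length is the distance of `x` and `y`) is chosen, with
vertex set `P x y = P y x`, and every vertex of `G` lies on at least one of the chosen
geodesics. -/
def IsStrongGeodeticSet {V : Type} (G : SimpleGraph V) (S : Finset V) : Prop :=
  ∃ P : V → V → Set V,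
    (∀ x ∈ S, ∀ y ∈ S, x ≠ y → P x y = P y x ∧
      ∃ p : G.Walk x y, p.length = G.dist x y ∧ P x y = {v | v ∈ p.support}) ∧
    ∀ v, ∃ x ∈ S, ∃ y ∈ S, x ≠ y ∧ v ∈ P x y

/-- The strong geodetic number: the least size of a strong geodetic set. -/
noncomputable def sg {V : Type} (G : SimpleGraph V) : ℕ :=
  sInf {k : ℕ | ∃ S : Finset V, S.card = k ∧ IsStrongGeodeticSet G S}

/-! ### General facts -/

/-- A flexible way to produce strong geodetic sets: prescribe the geodesics only for the ordered
pairs of an asymmetric relation `D`. -/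
theorem mk_strong {V : Type} (G : SimpleGraph V) (hG : G.Connected) (S : Finset V)
    (hS : 2 ≤ S.card) (D : V → V → Prop) (hD : ∀ x y, D x y → ¬ D y x) (Q : V → V → Set V)
    (hQ : ∀ x ∈ S, ∀ y ∈ S, D x y →
      ∃ p : G.Walk x y, p.length = G.dist x y ∧ Q x y = {v | v ∈ p.support})
    (hc : ∀ v, v ∉ S → ∃ x ∈ S, ∃ y ∈ S, D x y ∧ v ∈ Q x y) :
    IsStrongGeodeticSet G S := by
  classical
  have hw : ∀ x y : V, ∃ p : G.Walk x y, p.length = G.dist x y :=
    fun x y => hG.exists_walk_length_eq_dist x y
  choose w hw using hw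
  let r := linearOrderOfSTO (WellOrderingRel : V → V → Prop)
  refine ⟨fun x y => if D x y then Q x y else if D y x then Q y x else
    if x ≤ y then {v | v ∈ (w x y).support} else {v | v ∈ (w y x).support}, ?_, ?_⟩
  · intro x hx y hy hxy
    by_cases h1 : D x y
    · have h2 := hD _ _ h1
      simp only [if_pos h1, if_neg h2, true_and]
      exact hQ x hx y hy h1
    · by_cases h2 : D y x
      · simp only [if_pos h2, if_neg h1, true_and]
        obtain ⟨p, hp, hpQ⟩ := hQ y hy x hx h2
        refine ⟨p.reverse, ?_, ?_⟩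
        · rw [Walk.length_reverse, hp, dist_comm]
        · rw [hpQ]; simp
      · simp only [if_neg h1, if_neg h2]
        rcases lt_or_gt_of_ne hxy with h | h
        · have h' : ¬ y ≤ x := not_le.2 h
          simp only [if_pos h.le, if_neg h', true_and]
          exact ⟨w x y, hw x y, rfl⟩
        · have h' : ¬ x ≤ y := not_le.2 h
          simp only [if_pos h.le, if_neg h', true_and]
          refine ⟨(w y x).reverse, ?_, ?_⟩
          · rw [Walk.length_reverse, hw, dist_comm]
          · simp
  · intro v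
    by_cases hv : v ∈ S
    · obtain ⟨u, hu, huv⟩ : ∃ u ∈ S, u ≠ v := exists_mem_ne (by omega) v
      refine ⟨v, hv, u, hu, huv.symm, ?_⟩
      by_cases h1 : D v u
      · simp only [if_pos h1]
        obtain ⟨p, _, hpQ⟩ := hQ v hv u hu h1
        rw [hpQ]
        exact p.start_mem_support
      · by_cases h2 : D u v
        · simp only [if_neg h1, if_pos h2]
          obtain ⟨p, _, hpQ⟩ := hQ u hu v hv h2
          rw [hpQ]
          exact p.end_mem_support
        · simp only [if_neg h1, if_neg h2]
          by_cases h : v ≤ u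
          · simp only [if_pos h]
            exact (w v u).start_mem_support
          · simp only [if_neg h]
            exact (w u v).end_mem_support
    · obtain ⟨x, hx, y, hy, h, hvQ⟩ := hc v hv
      refine ⟨x, hx, y, hy, ?_, ?_⟩
      · rintro rfl
        exact hD _ _ h h
      · simp only [if_pos h]
        exact hvQ

theorem sg_le {V : Type} (G : SimpleGraph V) (S : Finset V) (hS : IsStrongGeodeticSet G S) :
    sg G ≤ S.card := Nat.sInf_le ⟨S, rfl, hS⟩

theorem univ_strong {V : Type} [Fintype V] [Nontrivial V] (G : SimpleGraph V)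
    (hG : G.Connected) : IsStrongGeodeticSet G (univ : Finset V) := by
  classical
  refine mk_strong G hG univ ?_ (fun _ _ => False) (fun _ _ h => h.elim) (fun _ _ => ∅)
    (fun _ _ _ _ h => h.elim) (fun v hv => (hv (mem_univ v)).elim)
  rw [card_univ]
  exact Fintype.one_lt_card

theorem exists_sg {V : Type} [Fintype V] [Nontrivial V] (G : SimpleGraph V)
    (hG : G.Connected) : ∃ S : Finset V, S.card = sg G ∧ IsStrongGeodeticSet G S :=
  Nat.sInf_mem (s := {k : ℕ | ∃ S : Finset V, S.card = k ∧ IsStrongGeodeticSet G S})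
    ⟨_, univ, rfl, univ_strong G hG⟩

theorem dist_prod {V W : Type} {G : SimpleGraph V} {H : SimpleGraph W} (hG : G.Connected)
    (hH : H.Connected) (x y : V × W) :
    (G □ H).dist x y = G.dist x.1 y.1 + H.dist x.2 y.2 := by
  have h := edist_boxProd (G := G) (H := H) x y
  have r1 := (hG.preconnected x.1 y.1).coe_dist_eq_edist
  have r2 := (hH.preconnected x.2 y.2).coe_dist_eq_edist
  have r3 := ((hG.boxProd hH).preconnected x y).coe_dist_eq_edist
  rw [← r1, ← r2, ← r3] at h
  exact_mod_cast h

/-- The projections of a walk of the product. -/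
theorem proj_walk {V W : Type} {G : SimpleGraph V} {H : SimpleGraph W} {x y : V × W}
    (p : (G □ H).Walk x y) : ∃ (q : G.Walk x.1 y.1) (r : H.Walk x.2 y.2),
      q.length + r.length = p.length ∧ (∀ v, v ∈ q.support ↔ ∃ h, (v, h) ∈ p.support) := by
  induction p with
  | nil =>
    refine ⟨.nil, .nil, by simp, ?_⟩
    intro v
    simp only [Walk.support_nil, List.mem_singleton]
    constructor
    · rintro rfl; exact ⟨_, rfl⟩
    · rintro ⟨h, e⟩; rw [← e]
  | @cons a b c hadj p ih =>
    obtain ⟨q, r, hl, hs⟩ := ih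
    rw [boxProd_adj] at hadj
    rcases hadj with ⟨h1, h2⟩ | ⟨h1, h2⟩
    · refine ⟨.cons h1 q, r.copy h2.symm rfl, ?_, ?_⟩
      · simp only [Walk.length_cons, Walk.length_copy]; omega
      · intro v
        simp only [Walk.support_cons, List.mem_cons, hs]
        constructor
        · rintro (rfl | ⟨h, hh⟩)
          · exact ⟨a.2, Or.inl rfl⟩
          · exact ⟨h, Or.inr hh⟩
        · rintro ⟨h, e | hh⟩
          · left; rw [← e]
          · exact Or.inr ⟨h, hh⟩
    · refine ⟨q.copy h2.symm rfl, .cons h1 r, ?_, ?_⟩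
      · simp only [Walk.length_cons, Walk.length_copy]; omega
      · intro v
        simp only [Walk.support_copy, Walk.support_cons, List.mem_cons, hs]
        constructor
        · rintro ⟨h, hh⟩
          exact ⟨h, Or.inr hh⟩
        · rintro ⟨h, e | hh⟩
          · refine ⟨b.2, ?_⟩
            have : v = b.1 := by rw [← h2, ← e]
            rw [this]
            exact p.start_mem_support
          · exact ⟨h, hh⟩

/-- From a family `E` of geodesics with ends in `A` which covers all vertices outside `A` one gets a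
strong geodetic set with at most `|A| + |E|` vertices. -/
theorem of_cover {V ι : Type} [Fintype V] [Nontrivial V] (G : SimpleGraph V) (hG : G.Connected)
    (A : Finset V) (hA : A.Nonempty) (E : Finset ι) (C : ι → Set V)
    (hC : ∀ e ∈ E, ∃ a ∈ A, ∃ b ∈ A, ∃ q : G.Walk a b, q.length = G.dist a b ∧
      C e = {v | v ∈ q.support})
    (hcov : ∀ v, v ∉ A → ∃ e ∈ E, v ∈ C e) :
    sg G ≤ A.card + E.card := by
  classical
  -- a minimal covering subfamily
  obtain ⟨F, hF, hmin⟩ := exists_min_image
    (E.powerset.filter fun F => ∀ v, v ∉ A → ∃ e ∈ F, v ∈ C e) card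
    ⟨E, by simp only [mem_filter, mem_powerset, Subset.refl, true_and]; exact hcov⟩
  rw [mem_filter, mem_powerset] at hF
  obtain ⟨hFE, hFc⟩ := hF
  have hpriv : ∀ e ∈ F, ∃ v, v ∉ A ∧ v ∈ C e ∧ ∀ e' ∈ F, v ∈ C e' → e' = e := by
    intro e he
    by_contra hcon
    push Not at hcon
    have h1 := hmin (F.erase e) (by
      rw [mem_filter, mem_powerset]
      refine ⟨(erase_subset _ _).trans hFE, fun v hv => ?_⟩
      obtain ⟨e', he', hve'⟩ := hFc v hv
      by_cases h : e' = e
      · subst h
        obtain ⟨e'', he'', hv'', hne⟩ := hcon v hv hve'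
        exact ⟨e'', mem_erase.2 ⟨hne, he''⟩, hv''⟩
      · exact ⟨e', mem_erase.2 ⟨h, he'⟩, hve'⟩)
    have h2 := card_erase_lt_of_mem he
    omega
  choose! f hfA hfC hfu using hpriv
  have hC' : ∀ e ∈ F, ∃ a ∈ A, ∃ b ∈ A, ∃ q : G.Walk a b, q.length = G.dist a b ∧
      C e = {v | v ∈ q.support} := fun e he => hC e (hFE he)
  choose! a haA b hbA hq' using hC'
  have hq'' : ∀ e, ∃ q : G.Walk (a e) (b e), e ∈ F → (q.length = G.dist (a e) (b e) ∧
      C e = {v | v ∈ q.support}) := by
    intro e
    by_cases he : e ∈ F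
    · obtain ⟨q, h1, h2⟩ := hq' e he
      exact ⟨q, fun _ => ⟨h1, h2⟩⟩
    · obtain ⟨q, -⟩ := hG.exists_walk_length_eq_dist (a e) (b e)
      exact ⟨q, fun h => (he h).elim⟩
  choose q hq0 using hq''
  have hq : ∀ e ∈ F, (q e).length = G.dist (a e) (b e) := fun e he => (hq0 e he).1
  have hqC : ∀ e ∈ F, C e = {v | v ∈ (q e).support} := fun e he => (hq0 e he).2
  have hmem : ∀ e (he : e ∈ F), f e ∈ (q e).support := by
    intro e he
    have := hfC e he
    rw [hqC e he] at this
    exact this
  have hab : ∀ e ∈ F, a e ≠ b e := by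
    intro e he h
    have hl := hq e he
    have h0 : (q e).length = 0 := by rw [hl, h, dist_self]
    have h1 := hmem e he
    have h2 : ∀ {x y : V} (w : G.Walk x y), w.length = 0 → ∀ v ∈ w.support, v = x := by
      intro x y w hw v hv
      cases w with
      | nil => simpa using hv
      | cons _ _ => simp at hw
    exact hfA e he ((h2 _ h0 _ h1) ▸ haA e he)
  have hinj : ∀ e ∈ F, ∀ e' ∈ F, f e = f e' → e = e' := by
    intro e he e' he' h
    exact (hfu e he e' he' (h ▸ hfC e' he')).symm
  -- the set
  let T : Finset V := A ∪ F.image f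
  have hTcard : T.card ≤ A.card + E.card := by
    calc T.card ≤ A.card + (F.image f).card := card_union_le _ _
      _ ≤ A.card + F.card := by gcongr; exact card_image_le
      _ ≤ A.card + E.card := by gcongr
  have hAT : A ⊆ T := subset_union_left
  have hfT : ∀ e ∈ F, f e ∈ T := fun e he => mem_union_right _ (mem_image_of_mem f he)
  have hT2 : 2 ≤ T.card := by
    obtain ⟨x, hx⟩ := hA
    obtain ⟨y, hy⟩ := exists_ne x
    by_cases hyA : y ∈ A
    · exact one_lt_card.2 ⟨x, hAT hx, y, hAT hyA, hy.symm⟩
    · obtain ⟨e, he, -⟩ := hFc y hyA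
      refine one_lt_card.2 ⟨x, hAT hx, f e, hfT e he, ?_⟩
      intro h
      exact hfA e he (h ▸ hx)
  refine (sg_le G T ?_).trans hTcard
  -- geodesics from `f e` to the two ends
  refine mk_strong G hG T hT2
    (fun x y => ∃ e ∈ F, x = f e ∧ (y = a e ∨ y = b e)) ?_
    (fun x y => {v | ∃ e ∈ F, x = f e ∧
      ((y = a e ∧ ∃ h : f e ∈ (q e).support, v ∈ ((q e).takeUntil _ h).support) ∨
       (y = b e ∧ ∃ h : f e ∈ (q e).support, v ∈ ((q e).dropUntil _ h).support))}) ?_ ?_
  · rintro x y ⟨e, he, rfl, hy⟩ ⟨e', he', rfl, hx⟩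
    rcases hx with hx | hx
    · exact hfA e he (hx ▸ haA e' he')
    · exact hfA e he (hx ▸ hbA e' he')
  · rintro x - y - ⟨e, he, rfl, hy⟩
    have hlen : ((q e).takeUntil _ (hmem e he)).length + ((q e).dropUntil _ (hmem e he)).length
        = (q e).length := by
      conv_rhs => rw [← (q e).take_spec (hmem e he)]
      rw [Walk.length_append]
    have hd1 : G.dist (a e) (f e) ≤ ((q e).takeUntil _ (hmem e he)).length := dist_le _
    have hd2 : G.dist (f e) (b e) ≤ ((q e).dropUntil _ (hmem e he)).length := dist_le _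
    have htri : G.dist (a e) (b e) ≤ G.dist (a e) (f e) + G.dist (f e) (b e) :=
      hG.dist_triangle
    have hqe := hq e he
    rcases hy with rfl | rfl
    · refine ⟨((q e).takeUntil _ (hmem e he)).reverse, ?_, ?_⟩
      · rw [Walk.length_reverse, dist_comm]; omega
      · ext v
        simp only [Set.mem_ofPred_eq, Walk.support_reverse, List.mem_reverse]
        constructor
        · rintro ⟨e', he', hee, ⟨-, h, hv⟩ | ⟨hb, h, hv⟩⟩
          · obtain rfl := hinj e he e' he' hee
            exact hv
          · obtain rfl := hinj e he e' he' hee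
            exact (hab e he hb).elim
        · intro hv
          exact ⟨e, he, rfl, Or.inl ⟨rfl, hmem e he, hv⟩⟩
    · refine ⟨(q e).dropUntil _ (hmem e he), ?_, ?_⟩
      · omega
      · ext v
        simp only [Set.mem_ofPred_eq]
        constructor
        · rintro ⟨e', he', hee, ⟨hb, h, hv⟩ | ⟨-, h, hv⟩⟩
          · obtain rfl := hinj e he e' he' hee
            exact (hab e he hb.symm).elim
          · obtain rfl := hinj e he e' he' hee
            exact hv
        · intro hv
          exact ⟨e, he, rfl, Or.inr ⟨rfl, hmem e he, hv⟩⟩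
  · intro v hv
    have hvA : v ∉ A := fun h => hv (hAT h)
    obtain ⟨e, he, hve⟩ := hFc v hvA
    have hve' : v ∈ (q e).support := by
      rw [hqC e he] at hve
      exact hve
    have hsplit : v ∈ ((q e).takeUntil _ (hmem e he)).support ∨
        v ∈ ((q e).dropUntil _ (hmem e he)).support := by
      rw [← Walk.mem_support_append_iff, Walk.take_spec]
      exact hve'
    rcases hsplit with h | h
    · exact ⟨f e, hfT e he, a e, hAT (haA e he), ⟨e, he, rfl, Or.inl rfl⟩,
        ⟨e, he, rfl, Or.inl ⟨rfl, hmem e he, h⟩⟩⟩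
    · exact ⟨f e, hfT e he, b e, hAT (hbA e he), ⟨e, he, rfl, Or.inr rfl⟩,
        ⟨e, he, rfl, Or.inr ⟨rfl, hmem e he, h⟩⟩⟩

/-- **The lower bound.** -/
theorem lower {V W : Type} [Fintype V] [Fintype W] [Nontrivial V] (G : SimpleGraph V)
    (H : SimpleGraph W) (hG : G.Connected) (hH : H.Connected) :
    2 * sg G ≤ sg (G □ H) * (sg (G □ H) + 1) := by
  classical
  have hW : Nonempty W := hH.nonempty
  obtain ⟨h0⟩ := hW
  have : Nonempty W := ⟨h0⟩
  have : Nontrivial (V × W) := by
    obtain ⟨x, y, hxy⟩ := exists_pair_ne V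
    exact ⟨(x, h0), (y, h0), fun h => hxy (Prod.ext_iff.1 h).1⟩
  obtain ⟨S, hScard, P, hP, hcov⟩ := exists_sg (G □ H) (hG.boxProd hH)
  rw [← hScard]
  have hA : (S.image Prod.fst).Nonempty := by
    obtain ⟨x, hx, -⟩ := hcov (Classical.arbitrary _)
    exact ⟨x.1, mem_image_of_mem _ hx⟩
  have key := of_cover G hG (S.image Prod.fst) hA (S.powersetCard 2)
    (fun e => {v | ∃ x ∈ e, ∃ y ∈ e, x ≠ y ∧ ∃ h, (v, h) ∈ P x y}) ?_ ?_
  · have h1 : (S.image Prod.fst).card ≤ S.card := card_image_le
    rw [card_powersetCard] at key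
    have h2 : 2 * S.card.choose 2 = S.card * (S.card - 1) := by
      rw [Nat.choose_two_right, Nat.mul_div_cancel' (Nat.even_mul_pred_self _).two_dvd]
    rcases Nat.eq_zero_or_pos S.card with h3 | h3
    · rw [h3] at key h1 ⊢
      simp at key
      omega
    · obtain ⟨m, hm⟩ : ∃ m, S.card = m + 1 := ⟨S.card - 1, by omega⟩
      rw [hm] at h1 h2 key ⊢
      simp only [Nat.add_sub_cancel] at h2
      nlinarith
  · intro e he
    rw [mem_powersetCard] at he
    obtain ⟨heS, hecard⟩ := he
    obtain ⟨x, y, hxy, rfl⟩ := card_eq_two.1 hecard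
    have hx : x ∈ S := heS (by simp)
    have hy : y ∈ S := heS (by simp)
    obtain ⟨hsym, p, hp, hPp⟩ := hP x hx y hy hxy
    obtain ⟨q, r, hl, hs⟩ := proj_walk p
    refine ⟨x.1, mem_image_of_mem _ hx, y.1, mem_image_of_mem _ hy, q, ?_, ?_⟩
    · have h1 := dist_prod hG hH x y
      have h2 : G.dist x.1 y.1 ≤ q.length := dist_le q
      have h3 : H.dist x.2 y.2 ≤ r.length := dist_le r
      omega
    · ext v
      simp only [Set.mem_ofPred_eq, mem_insert, mem_singleton, hs]
      constructor
      · rintro ⟨x', hx', y', hy', hne, h, hv⟩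
        refine ⟨h, ?_⟩
        rcases hx' with rfl | rfl <;> rcases hy' with rfl | rfl
        · exact (hne rfl).elim
        · rw [hPp] at hv; exact hv
        · rw [← hsym, hPp] at hv; exact hv
        · exact (hne rfl).elim
      · rintro ⟨h, hv⟩
        refine ⟨x, Or.inl rfl, y, Or.inr rfl, hxy, h, ?_⟩
        rw [hPp]; exact hv
  · intro v _
    obtain ⟨x, hx, y, hy, hxy, hv⟩ := hcov (v, h0)
    refine ⟨{x, y}, ?_, x, by simp, y, by simp, hxy, h0, hv⟩
    rw [mem_powersetCard]
    refine ⟨?_, card_pair hxy⟩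
    intro z hz
    simp only [mem_insert, mem_singleton] at hz
    rcases hz with rfl | rfl <;> assumption

/-! ### The examples -/

/-- Two hubs `inl (a, none)`, `p` leaves `inl (a, some i)` at each hub `a`, and `3 p ^ 2` vertices
`inr m`. -/
abbrev GV (p : ℕ) : Type := (Bool × Option (Fin p)) ⊕ (Fin 3 × Fin p × Fin p)

/-- Adjacency of the graph `GP p`. -/
def adjP (p : ℕ) : GV p → GV p → Prop
  | .inl (a, none), .inl (b, some _) => a = b
  | .inl (a, some _), .inl (b, none) => a = b
  | .inl (_, none), .inr _ => True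
  | .inr _, .inl (_, none) => True
  | _, _ => False

/-- The complete bipartite graph `K_{2, 3 p ^ 2}` with `p` pendant vertices attached to each of the
two vertices of the small side. -/
def GP (p : ℕ) : SimpleGraph (GV p) where
  Adj := adjP p
  symm := ⟨by
    rintro (⟨a, _ | i⟩ | m) (⟨b, _ | j⟩ | m') h <;> simp_all [adjP]⟩
  loopless := ⟨by
    rintro (⟨a, _ | i⟩ | m) h <;> simp_all [adjP]⟩

theorem adj_hub_leaf {p : ℕ} (a : Bool) (i : Fin p) :
    (GP p).Adj (.inl (a, none)) (.inl (a, some i)) := rfl

theorem adj_hub_mid {p : ℕ} (a : Bool) (m : Fin 3 × Fin p × Fin p) :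
    (GP p).Adj (.inl (a, none)) (.inr m) := trivial

/-- A potential which changes by one along each edge. -/
def pot (p : ℕ) : GV p → ℤ
  | .inl (false, some _) => 0
  | .inl (false, none) => 1
  | .inr _ => 2
  | .inl (true, none) => 3
  | .inl (true, some _) => 4

theorem pot_adj {p : ℕ} {x y : GV p} (h : (GP p).Adj x y) : |pot p x - pot p y| ≤ 1 := by
  have h' : adjP p x y := h
  clear h
  revert h'
  rcases x with ⟨a, _ | i⟩ | m <;> rcases y with ⟨b, _ | j⟩ | m' <;>
    (try cases a) <;> (try cases b) <;> simp [adjP, pot]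

theorem pot_walk {p : ℕ} {x y : GV p} (w : (GP p).Walk x y) :
    |pot p x - pot p y| ≤ w.length := by
  induction w with
  | nil => simp
  | @cons a b c h w ih =>
    have h1 := pot_adj h
    rw [Walk.length_cons]
    push_cast
    rw [abs_le] at *
    constructor <;> linarith [ih.1, ih.2, h1.1, h1.2]

theorem GP_walk {p : ℕ} (hp : 1 ≤ p) (x : GV p) :
    Nonempty ((GP p).Walk x (.inl (false, none))) := by
  have m : Fin 3 × Fin p × Fin p := (0, ⟨0, hp⟩, ⟨0, hp⟩)
  rcases x with ⟨a, _ | i⟩ | m'
  · exact ⟨.cons (adj_hub_mid a m) (.cons (adj_hub_mid false m).symm .nil)⟩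
  · exact ⟨.cons (adj_hub_leaf a i).symm (.cons (adj_hub_mid a m)
      (.cons (adj_hub_mid false m).symm .nil))⟩
  · exact ⟨.cons (adj_hub_mid false m').symm .nil⟩

theorem GP_connected {p : ℕ} (hp : 1 ≤ p) : (GP p).Connected := by
  have : Nonempty (GV p) := ⟨.inl (false, none)⟩
  refine Connected.mk (fun x y => ?_)
  obtain ⟨w⟩ := GP_walk hp x
  obtain ⟨w'⟩ := GP_walk hp y
  exact ⟨w.append w'.reverse⟩

theorem pot_dist {p : ℕ} (hp : 1 ≤ p) (x y : GV p) : |pot p x - pot p y| ≤ (GP p).dist x y := by
  obtain ⟨w, hw⟩ := (GP_connected hp).exists_walk_length_eq_dist x y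
  rw [← hw]
  exact pot_walk w

theorem dist_hub_mid {p : ℕ} (_ : 1 ≤ p) (a : Bool) (m : Fin 3 × Fin p × Fin p) :
    (GP p).dist (.inl (a, none)) (.inr m) = 1 := dist_eq_one_iff_adj.2 (adj_hub_mid a m)

theorem dist_leaf_mid {p : ℕ} (hp : 1 ≤ p) (a : Bool) (i : Fin p) (m : Fin 3 × Fin p × Fin p) :
    (GP p).dist (.inl (a, some i)) (.inr m) = 2 := by
  refine le_antisymm ?_ ?_
  · exact (dist_le (.cons (adj_hub_leaf a i).symm (.cons (adj_hub_mid a m) .nil))).trans (by simp)
  · have := pot_dist hp (.inl (a, some i)) (.inr m)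
    cases a <;> simp [pot] at this <;> omega

theorem dist_mid_mid {p : ℕ} (hp : 1 ≤ p) {m m' : Fin 3 × Fin p × Fin p} (h : m ≠ m') :
    (GP p).dist (.inr m) (.inr m') = 2 := by
  refine le_antisymm ?_ ?_
  · exact (dist_le (.cons (adj_hub_mid false m).symm (.cons (adj_hub_mid false m') .nil))).trans
      (by simp)
  · have h0 : (GP p).dist (.inr m) (.inr m') ≠ 0 := by
      intro h0
      have := ((GP_connected hp).preconnected _ _).dist_eq_zero_iff.1 h0
      exact h (Sum.inr_injective this)
    have h1 : (GP p).dist (.inr m) (.inr m') ≠ 1 := by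
      intro h1
      have := dist_eq_one_iff_adj.1 h1
      exact this
    omega

/-- Position on a geodesic. -/
theorem between {V : Type} {G : SimpleGraph V} (hG : G.Connected) {x y u : V} (q : G.Walk x y)
    (hq : q.length = G.dist x y) (hu : u ∈ q.support) :
    G.dist x u + G.dist u y = G.dist x y := by
  classical
  have hlen : (q.takeUntil _ hu).length + (q.dropUntil _ hu).length = q.length := by
    conv_rhs => rw [← q.take_spec hu]
    rw [Walk.length_append]
  have hd1 : G.dist x u ≤ (q.takeUntil _ hu).length := dist_le _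
  have hd2 : G.dist u y ≤ (q.dropUntil _ hu).length := dist_le _
  have htri : G.dist x y ≤ G.dist x u + G.dist u y := hG.dist_triangle
  omega

theorem same_pos {V : Type} {G : SimpleGraph V} (hG : G.Connected) {x y u v : V} (q : G.Walk x y)
    (hq : q.length = G.dist x y) (hu : u ∈ q.support) (hv : v ∈ q.support)
    (h : G.dist x u = G.dist x v) : u = v := by
  classical
  have hlen : (q.takeUntil _ hu).length + (q.dropUntil _ hu).length = q.length := by
    conv_rhs => rw [← q.take_spec hu]
    rw [Walk.length_append]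
  have hd1 : G.dist x u ≤ (q.takeUntil _ hu).length := dist_le _
  have hd2 : G.dist u y ≤ (q.dropUntil _ hu).length := dist_le _
  have htri : G.dist x y ≤ G.dist x u + G.dist u y := hG.dist_triangle
  have e1 := between hG q hq hu
  have e2 := between hG q hq hv
  have hsplit : v ∈ (q.takeUntil _ hu).support ∨ v ∈ (q.dropUntil _ hu).support := by
    rw [← Walk.mem_support_append_iff, Walk.take_spec]
    exact hv
  have hz : G.dist u v = 0 := by
    rcases hsplit with h1 | h1
    · have := between hG (q.takeUntil _ hu) (by omega) h1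
      rw [dist_comm]; omega
    · have := between hG (q.dropUntil _ hu) (by omega) h1
      omega
  exact (hG.preconnected _ _).dist_eq_zero_iff.1 hz

/-- The ends of a geodesic through a middle vertex that is not an end lie on different sides. -/
theorem sides {p : ℕ} (hp : 1 ≤ p) {x y : GV p} {m : Fin 3 × Fin p × Fin p} (hx : x ≠ .inr m)
    (hy : y ≠ .inr m) (hxy : x ≠ y)
    (h : (GP p).dist x (.inr m) + (GP p).dist (.inr m) y = (GP p).dist x y) :
    ∃ (a b : Bool) (o o' : Option (Fin p)), a ≠ b ∧ x = .inl (a, o) ∧ y = .inl (b, o') := by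
  have hc := GP_connected hp
  have hmm : ∀ u v : Fin 3 × Fin p × Fin p, (GP p).dist (.inr u) (.inr v) ≤ 2 := by
    intro u v
    exact (dist_le (.cons (adj_hub_mid false u).symm (.cons (adj_hub_mid false v) .nil))).trans
      (by simp)
  rcases x with ⟨a, o⟩ | u
  · rcases y with ⟨b, o'⟩ | v
    · refine ⟨a, b, o, o', ?_, rfl, rfl⟩
      rintro rfl
      rw [dist_comm (u := (Sum.inr m : GV p))] at h
      cases o with
      | none =>
        cases o' with
        | none => exact hxy rfl
        | some j =>
          rw [dist_hub_mid hp, dist_leaf_mid hp,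
            dist_eq_one_iff_adj.2 (adj_hub_leaf a j)] at h
          omega
      | some i =>
        cases o' with
        | none =>
          rw [dist_hub_mid hp, dist_leaf_mid hp,
            dist_eq_one_iff_adj.2 (adj_hub_leaf a i).symm] at h
          omega
        | some j =>
          rw [dist_leaf_mid hp, dist_leaf_mid hp] at h
          have := dist_le (.cons (adj_hub_leaf a i).symm (.cons (adj_hub_leaf a j) .nil))
          simp only [Walk.length_cons, Walk.length_nil] at this
          omega
    · exfalso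
      have hvm : m ≠ v := fun e => hy (by rw [e])
      rw [dist_mid_mid hp hvm] at h
      cases o with
      | none => rw [dist_hub_mid hp, dist_hub_mid hp] at h; omega
      | some i => rw [dist_leaf_mid hp, dist_leaf_mid hp] at h; omega
  · exfalso
    have hum : u ≠ m := fun e => hx (by rw [e])
    rw [dist_mid_mid hp hum] at h
    rcases y with ⟨b, o'⟩ | v
    · rw [dist_comm (u := (Sum.inr m : GV p)), dist_comm (u := (Sum.inr u : GV p))] at h
      cases o' with
      | none => rw [dist_hub_mid hp, dist_hub_mid hp] at h; omega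
      | some i => rw [dist_leaf_mid hp, dist_leaf_mid hp] at h; omega
    · have hvm : m ≠ v := fun e => hy (by rw [e])
      rw [dist_mid_mid hp hvm] at h
      have := hmm u v
      omega

theorem psi_inj (p : ℕ) : Function.Injective (Sum.elim (Sum.elim
    (fun o : Option (Fin p) => (Sum.inl (false, o) : GV p)) (fun o => .inl (true, o)))
    (fun m : Fin 3 × Fin p × Fin p => (Sum.inr m : GV p))) := by
  rintro ((o | o) | m) ((o' | o') | m') h
  · simp only [Sum.elim_inl, Sum.inl.injEq, Prod.mk.injEq, true_and] at h; rw [h]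
  · simp at h
  · simp at h
  · simp at h
  · simp only [Sum.elim_inl, Sum.elim_inr, Sum.inl.injEq, Prod.mk.injEq, true_and] at h; rw [h]
  · simp at h
  · simp at h
  · simp at h
  · simp only [Sum.elim_inr, Sum.inr.injEq] at h; rw [h]

theorem lowerGP {p : ℕ} (hp : 1 ≤ p) (S : Finset (GV p)) (hS : IsStrongGeodeticSet (GP p) S) :
    2 * p ^ 2 + 1 ≤ S.card := by
  classical
  obtain ⟨P, hP, hcov⟩ := hS
  have hc := GP_connected hp
  -- every middle vertex outside `S` comes from a pair of vertices of `S` on different sides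
  have key : ∀ m : Fin 3 × Fin p × Fin p, (Sum.inr m : GV p) ∉ S →
      ∃ o o' : Option (Fin p), (Sum.inl (false, o) : GV p) ∈ S ∧ (Sum.inl (true, o') : GV p) ∈ S ∧
        (Sum.inr m : GV p) ∈ P (Sum.inl (false, o)) (Sum.inl (true, o')) := by
    intro m hm
    obtain ⟨x, hx, y, hy, hxy, hv⟩ := hcov (.inr m)
    obtain ⟨hsym, q, hq, hPq⟩ := hP x hx y hy hxy
    have hv' : (Sum.inr m : GV p) ∈ q.support := by
      rw [hPq] at hv; exact hv
    have hb := between hc q hq hv'
    obtain ⟨a, b, o, o', hab, rfl, rfl⟩ := sides hp (fun h => hm (h ▸ hx)) (fun h => hm (h ▸ hy))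
      hxy hb
    cases a with
    | false =>
      obtain rfl : b = true := Bool.eq_true_of_not_eq_false (fun e => hab e.symm)
      exact ⟨o, o', hx, hy, hv⟩
    | true =>
      obtain rfl : b = false := Bool.eq_false_of_not_eq_true (fun e => hab e.symm)
      exact ⟨o', o, hy, hx, hsym ▸ hv⟩
  choose! f g hf hg hfg using key
  let SF := univ.filter fun o : Option (Fin p) => (Sum.inl (false, o) : GV p) ∈ S
  let ST := univ.filter fun o : Option (Fin p) => (Sum.inl (true, o) : GV p) ∈ S
  let SM := univ.filter fun m : Fin 3 × Fin p × Fin p => (Sum.inr m : GV p) ∈ S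
  let SN := univ.filter fun m : Fin 3 × Fin p × Fin p => ¬ (Sum.inr m : GV p) ∈ S
  have h1 : SN.card ≤ SF.card * ST.card := by
    rw [← card_product]
    refine card_le_card_of_injOn (fun m => (f m, g m)) ?_ ?_
    · intro m hm
      have hm' : (Sum.inr m : GV p) ∉ S := (mem_filter.1 hm).2
      have a1 : f m ∈ SF := mem_filter.2 ⟨mem_univ _, hf m hm'⟩
      have a2 : g m ∈ ST := mem_filter.2 ⟨mem_univ _, hg m hm'⟩
      exact mem_product.2 ⟨a1, a2⟩
    · intro m hm m' hm' he
      have hm1 : (Sum.inr m : GV p) ∉ S := (mem_filter.1 hm).2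
      have hm2 : (Sum.inr m' : GV p) ∉ S := (mem_filter.1 hm').2
      simp only [Prod.mk.injEq] at he
      obtain ⟨-, q, hq, hPq⟩ := hP _ (hf m hm1) _ (hg m hm1) (by simp)
      have u1 := hfg m hm1
      have u2 := hfg m' hm2
      rw [← he.1, ← he.2] at u2
      rw [hPq] at u1 u2
      have hd : (GP p).dist (Sum.inl (false, f m)) (.inr m) =
          (GP p).dist (Sum.inl (false, f m)) (.inr m') := by
        cases f m with
        | none => rw [dist_hub_mid hp, dist_hub_mid hp]
        | some i => rw [dist_leaf_mid hp, dist_leaf_mid hp]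
      exact Sum.inr_injective (same_pos hc q hq u1 u2 hd)
  have h2 : SM.card + SN.card = 3 * p ^ 2 := by
    have := card_filter_add_card_filter_not (s := (univ : Finset (Fin 3 × Fin p × Fin p)))
      (fun m => (Sum.inr m : GV p) ∈ S)
    rw [card_univ] at this
    simp only [Fintype.card_prod, Fintype.card_fin] at this
    rw [sq]
    exact this
  have h3 : SF.card ≤ p + 1 := by
    refine (card_filter_le _ _).trans ?_
    rw [card_univ, Fintype.card_option, Fintype.card_fin]
  have h4 : ST.card ≤ p + 1 := by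
    refine (card_filter_le _ _).trans ?_
    rw [card_univ, Fintype.card_option, Fintype.card_fin]
  have h5 : SF.card + ST.card + SM.card ≤ S.card := by
    have e : ((SF.disjSum ST).disjSum SM).card = SF.card + ST.card + SM.card := by
      rw [card_disjSum, card_disjSum]
    rw [← e]
    let ψ : (Option (Fin p) ⊕ Option (Fin p)) ⊕ (Fin 3 × Fin p × Fin p) → GV p :=
      Sum.elim (Sum.elim (fun o => .inl (false, o)) (fun o => .inl (true, o))) .inr
    refine card_le_card_of_injOn ψ ?_ ?_
    · intro z hz
      rcases z with (o | o) | m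
      · simp only [mem_coe, inl_mem_disjSum] at hz
        exact (mem_filter.1 hz).2
      · simp only [mem_coe, inl_mem_disjSum, inr_mem_disjSum] at hz
        exact (mem_filter.1 hz).2
      · simp only [mem_coe, inr_mem_disjSum] at hz
        exact (mem_filter.1 hz).2
    · intro z _ z' _ h
      exact psi_inj p h
  have h6 : (SF.card : ℤ) ≤ p + 1 := by exact_mod_cast h3
  have h7 : (ST.card : ℤ) ≤ p + 1 := by exact_mod_cast h4
  have h1' : (SN.card : ℤ) ≤ SF.card * ST.card := by exact_mod_cast h1
  have h2' : (SM.card : ℤ) + SN.card = 3 * p ^ 2 := by exact_mod_cast h2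
  have h5' : (SF.card : ℤ) + ST.card + SM.card ≤ S.card := by exact_mod_cast h5
  have hp' : (1 : ℤ) ≤ p := by exact_mod_cast hp
  have h8 : (0 : ℤ) ≤ SF.card := by positivity
  have h9 : (0 : ℤ) ≤ ST.card := by positivity
  have h10 : ((SF.card : ℤ) - 1) * (ST.card - 1) ≤ p ^ 2 := by
    rcases eq_or_lt_of_le h8 with h | h
    · rw [← h]; nlinarith
    · rcases eq_or_lt_of_le h9 with h' | h'
      · rw [← h']; nlinarith
      · nlinarith [mul_le_mul (sub_le_iff_le_add.2 h6) (sub_le_iff_le_add.2 h7)
          (by linarith) (by linarith)]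
  have : (2 * (p : ℤ) ^ 2 + 1) ≤ S.card := by nlinarith
  exact_mod_cast this

theorem sg_GP {p : ℕ} (hp : 1 ≤ p) : 2 * p ^ 2 + 1 ≤ sg (GP p) := by
  have : Nontrivial (GV p) := ⟨.inl (false, none), .inl (true, none), by simp⟩
  obtain ⟨S, hS, hS'⟩ := exists_sg (GP p) (GP_connected hp)
  rw [← hS]
  exact lowerGP hp S hS'

/-- The column used by the layers `h` and `h'`. -/
def col (h h' : Fin 2) : Fin 3 := if h = h' then 2 else if h = 0 then 0 else 1

/-- The path from the leaf `i` of the first hub in layer `h` to the leaf `j` of the second hub in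
layer `h'`. -/
def pathSet (p : ℕ) (i j : Fin p) (h h' : Fin 2) : Set (GV p × Fin 2) :=
  {v | v = (.inl (false, some i), h) ∨ v = (.inl (false, none), h) ∨
    v = (.inr (col h h', i, j), h) ∨ v = (.inr (col h h', i, j), h') ∨
    v = (.inl (true, none), h') ∨ v = (.inl (true, some j), h')}

theorem path_geod {p : ℕ} (hp : 1 ≤ p) (i j : Fin p) (h h' : Fin 2) :
    ∃ w : (GP p □ (⊤ : SimpleGraph (Fin 2))).Walk (.inl (false, some i), h)
      (.inl (true, some j), h'),
      w.length = (GP p □ (⊤ : SimpleGraph (Fin 2))).dist (.inl (false, some i), h)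
        (.inl (true, some j), h') ∧ pathSet p i j h h' = {v | v ∈ w.support} := by
  have hK : (⊤ : SimpleGraph (Fin 2)).Connected := connected_top
  have hd := dist_prod (GP_connected hp) hK (.inl (false, some i), h) (.inl (true, some j), h')
  have h4 := pot_dist hp (.inl (false, some i)) (.inl (true, some j))
  simp only [pot] at h4
  have h4' : 4 ≤ (GP p).dist (.inl (false, some i)) (.inl (true, some j)) := by
    have : (4 : ℤ) ≤ (GP p).dist (.inl (false, some i)) (.inl (true, some j)) := by
      refine le_trans ?_ h4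
      norm_num
    exact_mod_cast this
  simp only at hd
  have L : ∀ {x y : GV p} (k : Fin 2), (GP p).Adj x y →
      (GP p □ (⊤ : SimpleGraph (Fin 2))).Adj (x, k) (y, k) := by
    intro x y k hxy
    rw [boxProd_adj]; exact Or.inl ⟨hxy, rfl⟩
  by_cases hh : h = h'
  · subst hh
    let w : (GP p □ (⊤ : SimpleGraph (Fin 2))).Walk (.inl (false, some i), h)
        (.inl (true, some j), h) :=
      .cons (L h (adj_hub_leaf false i).symm) (.cons (L h (adj_hub_mid false (col h h, i, j)))
        (.cons (L h (adj_hub_mid true (col h h, i, j)).symm)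
          (.cons (L h (adj_hub_leaf true j)) .nil)))
    refine ⟨w, le_antisymm ?_ (dist_le w), ?_⟩
    · simp only [w, Walk.length_cons, Walk.length_nil]
      omega
    · ext v
      simp only [w, pathSet, Set.mem_ofPred_eq, Walk.support_cons, Walk.support_nil,
        List.mem_cons, List.not_mem_nil, or_false]
      tauto
  · have h1 : 1 ≤ (⊤ : SimpleGraph (Fin 2)).dist h h' := by
      rw [dist_eq_one_iff_adj.2 ((top_adj _ _).2 hh)]
    have R : ∀ x : GV p, (GP p □ (⊤ : SimpleGraph (Fin 2))).Adj (x, h) (x, h') := by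
      intro x
      rw [boxProd_adj]; exact Or.inr ⟨(top_adj _ _).2 hh, rfl⟩
    let w : (GP p □ (⊤ : SimpleGraph (Fin 2))).Walk (.inl (false, some i), h)
        (.inl (true, some j), h') :=
      .cons (L h (adj_hub_leaf false i).symm) (.cons (L h (adj_hub_mid false (col h h', i, j)))
        (.cons (R _) (.cons (L h' (adj_hub_mid true (col h h', i, j)).symm)
          (.cons (L h' (adj_hub_leaf true j)) .nil))))
    refine ⟨w, le_antisymm ?_ (dist_le w), ?_⟩
    · simp only [w, Walk.length_cons, Walk.length_nil]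
      omega
    · ext v
      simp only [w, pathSet, Set.mem_ofPred_eq, Walk.support_cons, Walk.support_nil,
        List.mem_cons, List.not_mem_nil, or_false]

/-- The `4 p` vertices. -/
def SS (p : ℕ) : Finset (GV p × Fin 2) :=
  univ.image fun q : (Bool × Fin p) × Fin 2 => (.inl (q.1.1, some q.1.2), q.2)

theorem SS_card (p : ℕ) : (SS p).card = 4 * p := by
  unfold SS
  rw [card_image_of_injective, card_univ]
  · simp only [Fintype.card_prod, Fintype.card_bool, Fintype.card_fin]
    ring
  · rintro ⟨⟨a, i⟩, h⟩ ⟨⟨b, j⟩, h'⟩ e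
    simpa [and_assoc] using e

theorem mem_SS {p : ℕ} (a : Bool) (i : Fin p) (h : Fin 2) :
    ((.inl (a, some i), h) : GV p × Fin 2) ∈ SS p :=
  mem_image.2 ⟨((a, i), h), mem_univ _, rfl⟩

theorem upperGP {p : ℕ} (hp : 1 ≤ p) :
    IsStrongGeodeticSet (GP p □ (⊤ : SimpleGraph (Fin 2))) (SS p) := by
  have hK : (⊤ : SimpleGraph (Fin 2)).Connected := connected_top
  have hi : Fin p := ⟨0, hp⟩
  refine mk_strong _ ((GP_connected hp).boxProd hK) (SS p) (by rw [SS_card]; omega)
    (fun x y => ∃ i j h h', x = (.inl (false, some i), h) ∧ y = (.inl (true, some j), h')) ?_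
    (fun x y => {v | ∃ i j h h', x = (.inl (false, some i), h) ∧ y = (.inl (true, some j), h') ∧
      v ∈ pathSet p i j h h'}) ?_ ?_
  · rintro x y ⟨i, j, h, h', rfl, rfl⟩ ⟨i', j', k, k', e, -⟩
    simp at e
  · rintro x - y - ⟨i, j, h, h', rfl, rfl⟩
    obtain ⟨w, hw, hw'⟩ := path_geod hp i j h h'
    refine ⟨w, hw, ?_⟩
    rw [← hw']
    ext v
    simp only [Set.mem_ofPred_eq]
    constructor
    · rintro ⟨i', j', k, k', e1, e2, hv⟩
      simp only [Prod.mk.injEq, Sum.inl.injEq, Option.some.injEq, true_and] at e1 e2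
      obtain ⟨rfl, rfl⟩ := e1
      obtain ⟨rfl, rfl⟩ := e2
      exact hv
    · intro hv
      exact ⟨i, j, h, h', rfl, rfl, hv⟩
  · intro v hv
    have cov : ∀ (i j : Fin p) (h h' : Fin 2), v ∈ pathSet p i j h h' →
        ∃ x ∈ SS p, ∃ y ∈ SS p, (∃ i j h h', x = (.inl (false, some i), h) ∧
          y = (.inl (true, some j), h')) ∧ v ∈ {v | ∃ i j h h', x = (.inl (false, some i), h) ∧
            y = (.inl (true, some j), h') ∧ v ∈ pathSet p i j h h'} := by
      intro i j h h' hv
      exact ⟨_, mem_SS false i h, _, mem_SS true j h', ⟨i, j, h, h', rfl, rfl⟩,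
        ⟨i, j, h, h', rfl, rfl, hv⟩⟩
    obtain ⟨x, k⟩ := v
    rcases x with ⟨a, _ | i⟩ | ⟨c, i, j⟩
    · cases a with
      | false => exact cov hi hi k k (Or.inr (Or.inl rfl))
      | true => exact cov hi hi k k (Or.inr (Or.inr (Or.inr (Or.inr (Or.inl rfl)))))
    · exact (hv (mem_SS a i k)).elim
    · have hc : ∀ (c : Fin 3) (k : Fin 2), ∃ h h' : Fin 2, col h h' = c ∧ (k = h ∨ k = h') := by
        decide
      obtain ⟨h, h', hcol, hk⟩ := hc c k
      refine cov i j h h' ?_
      rcases hk with rfl | rfl
      · exact Or.inr (Or.inr (Or.inl (by rw [hcol])))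
      · exact Or.inr (Or.inr (Or.inr (Or.inl (by rw [hcol]))))

theorem swap_walk {V W : Type} {G : SimpleGraph V} {H : SimpleGraph W} {x y : V × W}
    (q : (G □ H).Walk x y) : ∃ w : (H □ G).Walk x.swap y.swap, w.length = q.length ∧
      ∀ v, v ∈ w.support ↔ v.swap ∈ q.support := by
  induction q with
  | @nil u =>
    refine ⟨.nil, rfl, fun v => ?_⟩
    simp only [Walk.support_nil, List.mem_singleton]
    constructor
    · rintro rfl; simp
    · intro h; rw [← h, Prod.swap_swap]
  | @cons a b c h q ih =>
    obtain ⟨w, hl, hs⟩ := ih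
    have h' : (H □ G).Adj a.swap b.swap := by
      rw [boxProd_adj] at h ⊢
      exact h.symm
    refine ⟨.cons h' w, by simp [hl], fun v => ?_⟩
    simp only [Walk.support_cons, List.mem_cons, hs]
    constructor
    · rintro (rfl | h)
      · left; simp
      · exact Or.inr h
    · rintro (h | h)
      · left; rw [← h, Prod.swap_swap]
      · exact Or.inr h

theorem sg_swap {V W : Type} [Fintype V] [Fintype W] [Nontrivial V] [Nontrivial W]
    (G : SimpleGraph V) (H : SimpleGraph W) (hG : G.Connected) (hH : H.Connected) :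
    sg (H □ G) ≤ sg (G □ H) := by
  classical
  obtain ⟨S, hScard, P, hP, hcov⟩ := exists_sg (G □ H) (hG.boxProd hH)
  rw [← hScard]
  refine (sg_le _ (S.image Prod.swap) ?_).trans card_image_le
  refine ⟨fun x y => {v | v.swap ∈ P x.swap y.swap}, ?_, ?_⟩
  · intro x hx y hy hxy
    obtain ⟨x, hx', rfl⟩ := mem_image.1 hx
    obtain ⟨y, hy', rfl⟩ := mem_image.1 hy
    have hxy' : x ≠ y := fun h => hxy (by rw [h])
    obtain ⟨hsym, q, hq, hPq⟩ := hP x hx' y hy' hxy'
    refine ⟨by simp only [Prod.swap_swap]; rw [hsym], ?_⟩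
    obtain ⟨w, hl, hs⟩ := swap_walk q
    refine ⟨w, ?_, ?_⟩
    · rw [hl, hq, dist_prod hG hH, dist_prod hH hG, add_comm]
      rfl
    · ext v
      simp only [Set.mem_ofPred_eq, Prod.swap_swap, hPq, hs]
  · intro v
    obtain ⟨x, hx, y, hy, hxy, hv⟩ := hcov v.swap
    refine ⟨x.swap, mem_image_of_mem _ hx, y.swap, mem_image_of_mem _ hy, ?_, ?_⟩
    · intro h
      exact hxy (Prod.swap_injective h)
    · simp only [Set.mem_ofPred_eq, Prod.swap_swap]
      exact hv

/-- **The order of the smallest possible strong geodetic number of a Cartesian product.**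

(1) For all connected graphs `G`, `H` with at least two vertices and `s = sg (G □ H)` one has
`max (sg G) (sg H) ≤ s (s + 1) / 2`.

(2) For every `p ≥ 1` the graph `GP p` (the complete bipartite graph `K_{2, 3 p²}` with `p` pendant
vertices attached to each of the two vertices of the small side) is connected and has
`sg (GP p) ≥ 2 p² + 1`, while `sg (GP p □ K₂) ≤ 4 p`; so `sg (GP p □ K₂) ^ 2 < 8 * sg (GP p)`.

(3) In particular the inequality `sg (G □ H) ≥ max (sg G, sg H)` fails. -/
theorem result :
    (∀ (V W : Type) [Fintype V] [Fintype W] [Nontrivial V] [Nontrivial W]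
      (G : SimpleGraph V) (H : SimpleGraph W), G.Connected → H.Connected →
        2 * max (sg G) (sg H) ≤ sg (G □ H) * (sg (G □ H) + 1)) ∧
    (∀ p : ℕ, 1 ≤ p → (GP p).Connected ∧ 2 * p ^ 2 + 1 ≤ sg (GP p) ∧
        sg (GP p □ (⊤ : SimpleGraph (Fin 2))) ≤ 4 * p ∧
        sg (GP p □ (⊤ : SimpleGraph (Fin 2))) ^ 2 < 8 * sg (GP p)) ∧
    ¬ ∀ (V W : Type) [Fintype V] [Fintype W] [Nontrivial V] [Nontrivial W]
      (G : SimpleGraph V) (H : SimpleGraph W), G.Connected → H.Connected →
        max (sg G) (sg H) ≤ sg (G □ H) := by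
  have h2 : ∀ p : ℕ, 1 ≤ p → (GP p).Connected ∧ 2 * p ^ 2 + 1 ≤ sg (GP p) ∧
        sg (GP p □ (⊤ : SimpleGraph (Fin 2))) ≤ 4 * p ∧
        sg (GP p □ (⊤ : SimpleGraph (Fin 2))) ^ 2 < 8 * sg (GP p) := by
    intro p hp
    have h1 := sg_GP hp
    have h3 : sg (GP p □ (⊤ : SimpleGraph (Fin 2))) ≤ 4 * p := by
      rw [← SS_card]
      exact sg_le _ _ (upperGP hp)
    refine ⟨GP_connected hp, h1, h3, ?_⟩
    have h4 := Nat.pow_le_pow_left h3 2
    have h5 : (4 * p) ^ 2 = 16 * p ^ 2 := by ring
    omega
  refine ⟨?_, h2, ?_⟩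
  · intro V W _ _ _ _ G H hG hH
    rcases max_cases (sg G) (sg H) with ⟨h, -⟩ | ⟨h, -⟩
    · rw [h]
      exact lower G H hG hH
    · rw [h]
      refine (lower H G hH hG).trans ?_
      have := sg_swap G H hG hH
      gcongr
  · intro h
    obtain ⟨h1, h3, h4, -⟩ := h2 2 (by norm_num)
    have : Nontrivial (GV 2) := ⟨.inl (false, none), .inl (true, none), by simp⟩
    have h5 := h _ _ (GP 2) (⊤ : SimpleGraph (Fin 2)) h1 connected_top
    have h6 := le_max_left (sg (GP 2)) (sg (⊤ : SimpleGraph (Fin 2)))
    omega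

end Pool.Agent.Results.MP_8400ad_co.SquareRootOrder
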